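import Mathlib
import Pool.Agent.R489.HB.Stm

set_option autoImplicit false

namespace Pool.Agent.R725.HB

open Finset Pool.Agent.R489.HB

theorem sdr : ∀ p q r : Fin 3, ¬ (p = q ∧ q = r) →
    ∃ i j k : Fin 3, i ≠ j ∧ i ≠ k ∧ j ≠ k ∧ i ≠ p ∧ j ≠ q ∧ k ≠ r := by
  decide

theorem all3 : ∀ i j k m : Fin 3, i ≠ j → i ≠ k → j ≠ k → m = i ∨ m = j ∨ m = k := by
  decide

theorem vec_ne {W : Type} [DecidableEq W] (T : Finset W) (a : W → Fin 3) (m : Fin 3) (v s : W)
    (hv : v ∉ T) (hs : a s ≠ m) : vec T a m {v, s} ≠ 0 := by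
  intro h
  have h1 := congrFun h v
  unfold vec at h1
  rw [if_pos] at h1
  · exact one_ne_zero h1
  · refine ⟨by simp, hv, ?_⟩
    by_cases hav : a v = m
    · exact Or.inr ⟨hav, s, by simp, hs⟩
    · refine Or.inl fun y hy => ?_
      rcases Finset.mem_insert.1 hy with rfl | hy
      · exact hav
      · rw [Finset.mem_singleton.1 hy]
        exact hs

theorem BASE : S_BASE := by
  classical
  intro W _ Φ T a hΦ hT hcard hmono
  have hT3 := hΦ.three T hT
  have hTV : T ⊆ vts Φ := Finset.subset_biUnion_of_mem id hT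
  have hsd : (vts Φ \ T).card = 1 := by
    rw [Finset.card_sdiff_of_subset hTV, hcard, hT3]
  obtain ⟨v, hv⟩ := Finset.card_eq_one.1 hsd
  have hvT : v ∉ T := by
    have : v ∈ vts Φ \ T := by rw [hv]; exact Finset.mem_singleton_self v
    exact (Finset.mem_sdiff.1 this).2
  obtain ⟨x, y, z, hxy, hxz, hyz, rfl⟩ := Finset.card_eq_three.1 hT3
  have hne : ¬ (a x = a y ∧ a y = a z) := by
    rintro ⟨h1, h2⟩
    apply hmono
    intro p hp q hq
    simp only [Finset.mem_insert, Finset.mem_singleton] at hp hq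
    rcases hp with rfl | rfl | rfl <;> rcases hq with rfl | rfl | rfl <;>
      simp [h1, h2]
  obtain ⟨i, j, k, hij, hik, hjk, hi, hj, hk⟩ := sdr _ _ _ hne
  have hvx : v ≠ x := fun h => hvT (by rw [h]; simp)
  have hvy : v ≠ y := fun h => hvT (by rw [h]; simp)
  have hvz : v ≠ z := fun h => hvT (by rw [h]; simp)
  -- the inner edges
  have hedge : ∀ e, e ∈ edg Φ → ¬ e ⊆ {x, y, z} → e = {v, x} ∨ e = {v, y} ∨ e = {v, z} := by
    intro e he hne'
    obtain ⟨f, hf, hef⟩ := Finset.mem_biUnion.1 he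
    rw [Finset.mem_powersetCard] at hef
    have hsub : ∀ w ∈ e, w = v ∨ w ∈ ({x, y, z} : Finset W) := by
      intro w hw
      by_cases hwT : w ∈ ({x, y, z} : Finset W)
      · exact Or.inr hwT
      · left
        have : w ∈ vts Φ \ {x, y, z} :=
          Finset.mem_sdiff.2 ⟨Finset.mem_biUnion.2 ⟨f, hf, hef.1 hw⟩, hwT⟩
        rw [hv] at this
        exact Finset.mem_singleton.1 this
    obtain ⟨w, hwe, hwT⟩ := Finset.not_subset.1 hne'
    have hwv : w = v := (hsub w hwe).resolve_right hwT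
    subst hwv
    obtain ⟨s, hs⟩ := Finset.card_eq_one.1 (show (e.erase w).card = 1 by
      rw [Finset.card_erase_of_mem hwe, hef.2])
    have hse : s ∈ e.erase w := by rw [hs]; exact Finset.mem_singleton_self s
    have hsw := (Finset.mem_erase.1 hse).1
    have hsT := (hsub s (Finset.mem_erase.1 hse).2).resolve_left hsw
    have he2 : e = {w, s} := by
      rw [← Finset.insert_erase hwe, hs]
    rw [he2]
    simp only [Finset.mem_insert, Finset.mem_singleton] at hsT
    rcases hsT with rfl | rfl | rfl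
    · exact Or.inl rfl
    · exact Or.inr (Or.inl rfl)
    · exact Or.inr (Or.inr rfl)
  refine ⟨fun e => if x ∈ e then i else if y ∈ e then j else k, fun m => ?_⟩
  have hcx : (if x ∈ ({v, x} : Finset W) then i else if y ∈ ({v, x} : Finset W) then j else k)
      = i := by rw [if_pos]; simp
  have hcy : (if x ∈ ({v, y} : Finset W) then i else if y ∈ ({v, y} : Finset W) then j else k)
      = j := by
    rw [if_neg, if_pos]
    · simp
    · simp [hvx.symm, hxy]
  have hcz : (if x ∈ ({v, z} : Finset W) then i else if y ∈ ({v, z} : Finset W) then j else k)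
      = k := by
    rw [if_neg, if_neg]
    · simp [hvy.symm, hyz]
    · simp [hvx.symm, hxz]
  have key : ∀ s : W, a s ≠ m →
      {e : Finset W | e ∈ edg Φ ∧ ¬ e ⊆ {x, y, z} ∧
        (if x ∈ e then i else if y ∈ e then j else k) = m} ⊆ {{v, s}} →
      LinearIndepOn (ZMod 2) (vec {x, y, z} a m)
        {e : Finset W | e ∈ edg Φ ∧ ¬ e ⊆ {x, y, z} ∧
        (if x ∈ e then i else if y ∈ e then j else k) = m} := by
    intro s hs hsub
    exact (LinearIndepOn.singleton (vec_ne _ a m v s hvT hs)).mono hsub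
  rcases all3 i j k m hij hik hjk with rfl | rfl | rfl
  · refine key x hi.symm ?_
    rintro e ⟨h1, h2, h3⟩
    rcases hedge e h1 h2 with rfl | rfl | rfl
    · rfl
    · rw [hcy] at h3; exact absurd h3.symm hij
    · rw [hcz] at h3; exact absurd h3.symm hik
  · refine key y hj.symm ?_
    rintro e ⟨h1, h2, h3⟩
    rcases hedge e h1 h2 with rfl | rfl | rfl
    · rw [hcx] at h3; exact absurd h3 hij
    · rfl
    · rw [hcz] at h3; exact absurd h3.symm hjk
  · refine key z hk.symm ?_
    rintro e ⟨h1, h2, h3⟩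
    rcases hedge e h1 h2 with rfl | rfl | rfl
    · rw [hcx] at h3; exact absurd h3 hik
    · rw [hcy] at h3; exact absurd h3 hjk
    · rfl

end Pool.Agent.R725.HB
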