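import Mathlib
import Pool.Agent.R489.HB.Stm

set_option autoImplicit false

namespace Pool.Agent.R725.HB

open Finset Pool.Agent.R489.HB

theorem DG4 : S_DG3 → S_DG4 := by
  classical
  intro hDG3 W _ Φ hΦ hNF h5 v hv
  by_contra hcon
  obtain ⟨-, h3, -⟩ := hDG3 W Φ hΦ
  obtain ⟨h3v, hfv⟩ := h3 v hv
  have hdg : dg Φ v = 3 := by omega
  rw [hdg] at hfv
  -- the neighbours
  set B : Finset W := (vts Φ).filter (fun w => w ≠ v ∧ {v, w} ∈ edg Φ) with hB
  have hedge : ∀ e ∈ edg Φ, e.card = 2 := by
    intro e he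
    obtain ⟨f, -, hef⟩ := Finset.mem_biUnion.1 he
    exact (Finset.mem_powersetCard.1 hef).2
  have hsub_edg : ∀ f ∈ Φ, ∀ e ⊆ f, e.card = 2 → e ∈ edg Φ := by
    intro f hf e hef hec
    exact Finset.mem_biUnion.2 ⟨f, hf, Finset.mem_powersetCard.2 ⟨hef, hec⟩⟩
  have hBv : v ∉ B := by
    intro h
    exact (Finset.mem_filter.1 h).2.1 rfl
  have hBcard : B.card = 3 := by
    rw [← hdg, dg]
    refine Finset.card_bij (fun w _ => ({v, w} : Finset W)) ?_ ?_ ?_
    · intro w hw
      exact Finset.mem_filter.2 ⟨(Finset.mem_filter.1 hw).2.2, by simp⟩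
    · intro w hw w' hw' hww
      have h1 := (Finset.mem_filter.1 hw).2.1
      have : w ∈ ({v, w'} : Finset W) := by
        rw [← hww]; simp
      rcases Finset.mem_insert.1 this with h | h
      · exact absurd h h1
      · exact Finset.mem_singleton.1 h
    · intro e he
      obtain ⟨he1, he2⟩ := Finset.mem_filter.1 he
      obtain ⟨s, hs⟩ := Finset.card_eq_one.1 (show (e.erase v).card = 1 by
        rw [Finset.card_erase_of_mem he2, hedge e he1])
      have hse : s ∈ e.erase v := by rw [hs]; exact Finset.mem_singleton_self s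
      have he3 : ({v, s} : Finset W) = e := by
        rw [← Finset.insert_erase he2, hs]
      obtain ⟨f, hf, hef⟩ := Finset.mem_biUnion.1 he1
      refine ⟨s, Finset.mem_filter.2 ⟨?_, (Finset.mem_erase.1 hse).1, ?_⟩, he3⟩
      · exact Finset.mem_biUnion.2 ⟨f, hf, (Finset.mem_powersetCard.1 hef).1
          (Finset.mem_erase.1 hse).2⟩
      · rw [he3]; exact he1
  have hfcv : ∀ f, f ∈ fc Φ {v} ↔ f ∈ Φ ∧ v ∈ f := by
    intro f
    rw [fc, Finset.mem_filter, Finset.singleton_subset_iff]
  have hfB : ∀ f ∈ Φ, v ∈ f → f.erase v ∈ B.powersetCard 2 := by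
    intro f hf hvf
    rw [Finset.mem_powersetCard, Finset.card_erase_of_mem hvf, hΦ.three f hf]
    refine ⟨fun w hw => ?_, rfl⟩
    obtain ⟨hwv, hwf⟩ := Finset.mem_erase.1 hw
    refine Finset.mem_filter.2 ⟨Finset.mem_biUnion.2 ⟨f, hf, hwf⟩, hwv, ?_⟩
    refine hsub_edg f hf _ ?_ (Finset.card_pair hwv.symm)
    intro p hp
    rcases Finset.mem_insert.1 hp with rfl | hp
    · exact hvf
    · rw [Finset.mem_singleton.1 hp]; exact hwf
  have himg : (fc Φ {v}).image (fun f => f.erase v) = B.powersetCard 2 := by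
    refine Finset.eq_of_subset_of_card_le ?_ ?_
    · intro e he
      obtain ⟨f, hf, rfl⟩ := Finset.mem_image.1 he
      obtain ⟨hf1, hf2⟩ := (hfcv f).1 hf
      exact hfB f hf1 hf2
    · rw [Finset.card_powersetCard, hBcard, Finset.card_image_of_injOn, hfv]
      · decide
      · intro f hf g hg hfg
        have hf2 := ((hfcv f).1 hf).2
        have hg2 := ((hfcv g).1 hg).2
        have hfg' : f.erase v = g.erase v := hfg
        rw [← Finset.insert_erase hf2, ← Finset.insert_erase hg2, hfg']
  have hins : ∀ e ∈ B.powersetCard 2, insert v e ∈ Φ := by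
    intro e he
    rw [← himg] at he
    obtain ⟨f, hf, rfl⟩ := Finset.mem_image.1 he
    obtain ⟨hf1, hf2⟩ := (hfcv f).1 hf
    show insert v (f.erase v) ∈ Φ
    rw [Finset.insert_erase hf2]
    exact hf1
  have hBΦ : B ∈ Φ := by
    refine hNF B hBcard fun e he => ?_
    exact hsub_edg _ (hins e he) e (Finset.subset_insert _ _) (Finset.mem_powersetCard.1 he).2
  set U : Finset W := insert v B with hU
  have hUcard : U.card = 4 := by
    rw [hU, Finset.card_insert_of_notMem hBv, hBcard]
  set Ψ : Finset (Finset W) := U.powersetCard 3 with hΨ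
  have hΨΦ : Ψ ⊆ Φ := by
    intro f hf
    obtain ⟨hfU, hf3⟩ := Finset.mem_powersetCard.1 hf
    by_cases hvf : v ∈ f
    · rw [← Finset.insert_erase hvf]
      refine hins _ (Finset.mem_powersetCard.2 ⟨fun w hw => ?_, ?_⟩)
      · obtain ⟨hwv, hwf⟩ := Finset.mem_erase.1 hw
        exact (Finset.mem_insert.1 (hfU hwf)).resolve_left hwv
      · rw [Finset.card_erase_of_mem hvf, hf3]
    · have hfB' : f ⊆ B := by
        intro w hw
        refine (Finset.mem_insert.1 (hfU hw)).resolve_left ?_
        rintro rfl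
        exact hvf hw
      rw [Finset.eq_of_subset_of_card_le hfB' (by rw [hBcard, hf3])]
      exact hBΦ
  have hBΨ : B ∈ Ψ := Finset.mem_powersetCard.2 ⟨Finset.subset_insert _ _, hBcard⟩
  have heven : ∀ e ∈ edg Φ, Even (fc Ψ e).card := by
    intro e he
    have he2 := hedge e he
    by_cases heU : e ⊆ U
    · have h1 : (fc Ψ e).card ≤ 2 := by
        rw [← hΦ.two e he]
        exact Finset.card_le_card (Finset.filter_subset_filter _ hΨΦ)
      have h2 : 2 ≤ (fc Ψ e).card := by
        have h4 : (U \ e).card = 2 := by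
          rw [Finset.card_sdiff_of_subset heU, hUcard, he2]
        rw [← h4]
        refine Finset.card_le_card_of_injOn (fun w => insert w e) ?_ ?_
        · intro w hw
          obtain ⟨hwU, hwe⟩ := Finset.mem_sdiff.1 (Finset.mem_coe.1 hw)
          refine Finset.mem_coe.2 (Finset.mem_filter.2 ⟨Finset.mem_powersetCard.2 ⟨?_, ?_⟩,
            Finset.subset_insert _ _⟩)
          · exact Finset.insert_subset hwU heU
          · rw [Finset.card_insert_of_notMem hwe, he2]
        · intro w hw w' hw' hww
          obtain ⟨hwU, hwe⟩ := Finset.mem_sdiff.1 (Finset.mem_coe.1 hw)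
          have hww' : insert w e = insert w' e := hww
          have : w ∈ insert w' e := by
            rw [← hww']; exact Finset.mem_insert_self _ _
          exact (Finset.mem_insert.1 this).resolve_right hwe
      have h3 : (fc Ψ e).card = 2 := le_antisymm h1 h2
      rw [h3]
      exact even_two
    · have h1 : fc Ψ e = ∅ := by
        refine Finset.filter_eq_empty_iff.2 fun f hf hef => heU ?_
        exact hef.trans (Finset.mem_powersetCard.1 hf).1
      rw [h1]
      simp
  rcases hΦ.conn Ψ hΨΦ heven with h | h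
  · rw [h] at hBΨ
    simp at hBΨ
  · have : vts Φ ⊆ U := by
      intro w hw
      obtain ⟨f, hf, hwf⟩ := Finset.mem_biUnion.1 hw
      rw [← h] at hf
      exact (Finset.mem_powersetCard.1 hf).1 hwf
    have := Finset.card_le_card this
    omega

end Pool.Agent.R725.HB
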